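import Pool.Agent.ZAR.Stmts

/-!
# Tools for RKM and TGC (table zar)
-/

namespace Pool.Agent.ZAR.H02

open MvPowerSeries

/-- The constant term of a substitution. -/
theorem cc_subst {m n : ℕ} {K : Type} [Field K] {a : Fin m → MvPowerSeries (Fin n) K}
    (ha : ∀ i, constantCoeff (a i) = 0) (f : MvPowerSeries (Fin m) K) :
    constantCoeff (subst a f) = constantCoeff f := by
  have hs : HasSubst a := hasSubst_of_constantCoeff_zero ha
  have h1 : f = C (constantCoeff f) + (f - C (constantCoeff f)) := by ring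
  have h2 : constantCoeff (f - C (constantCoeff f)) = 0 := by simp
  have h3 : subst a f = C (constantCoeff f) + subst a (f - C (constantCoeff f)) := by
    conv_lhs => rw [h1]
    rw [subst_add hs, subst_C]
  rw [h3, map_add, constantCoeff_subst_eq_zero hs ha h2, constantCoeff_C, add_zero]

/-- The chain rule at the origin. -/
theorem cc_pd_subst (cha : CHAStmt) {m n : ℕ} {K : Type} [Field K]
    {a : Fin m → MvPowerSeries (Fin n) K}
    (ha : ∀ i, constantCoeff (a i) = 0) (f : MvPowerSeries (Fin m) K) (j : Fin n) :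
    constantCoeff (pderiv K j (subst a f)) =
      ∑ i, constantCoeff (pderiv K i f) * constantCoeff (pderiv K j (a i)) := by
  rw [cha K m n a ha f j, map_sum]
  refine Finset.sum_congr rfl fun i _ => ?_
  rw [map_mul, cc_subst ha]

/-- Derivatives commute with the extension of the ground field. -/
theorem pd_bc {K L : Type} [Field K] [Field L] [Algebra K L] {n : ℕ}
    (f : MvPowerSeries (Fin n) K) (j : Fin n) :
    pderiv L j (bc K L (Fin n) f) = bc K L (Fin n) (pderiv K j f) := by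
  ext d
  simp only [coeff_pderiv, coeff_map, map_mul, map_add, map_natCast, map_one]

theorem cc_bc {K L : Type} [Field K] [Field L] [Algebra K L] {n : ℕ}
    (f : MvPowerSeries (Fin n) K) :
    constantCoeff (bc K L (Fin n) f) = algebraMap K L (constantCoeff f) := by
  simp only [← coeff_zero_eq_constantCoeff_apply, coeff_map]

/-- The derivative of a push forward at the origin. -/
theorem cc_pf (cha : CHAStmt) {K L : Type} [Field K] [Field L] [Algebra K L] {n p : ℕ}
    (u : Fin n → Fin (n + 1) → L) (x : Fin (n + 1) → MvPowerSeries (Fin (n + 1)) K)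
    (a : Fin (n + 1) → MvPowerSeries (Fin p) K) (ha : ∀ i, constantCoeff (a i) = 0)
    (i : Fin n) (l : Fin p) :
    constantCoeff (pderiv L l (pf u x a i)) =
      ∑ j, u i j * algebraMap K L (∑ q, jac0 x j q * constantCoeff (pderiv K l (a q))) := by
  unfold pf
  rw [map_sum, map_sum]
  refine Finset.sum_congr rfl fun j _ => ?_
  rw [Derivation.leibniz, pderiv_C, smul_zero, add_zero, smul_eq_mul, map_mul, constantCoeff_C,
    pd_bc, cc_bc, cc_pd_subst cha ha]
  rfl

/-- The tangent map of the family `pf u φ (fA v)` at the origin. -/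
noncomputable def T0 {K L : Type} [Field K] [Field L] [Algebra K L] (u : Fin 4 → Fin 5 → L)
    (v : Fin 6 → K) (φ : Fin 5 → MvPowerSeries (Fin 5) K) : Matrix (Fin 4) (Fin 3) L :=
  Matrix.of fun j l => constantCoeff (pderiv L l (pf u φ (fA v) j))

theorem fA_cc {K : Type} [Field K] (v : Fin 6 → K) (i : Fin 5) : constantCoeff (fA v i) = 0 := by
  fin_cases i <;> simp [fA]

theorem fL_cc {K : Type} [Field K] (i : Fin 5) : constantCoeff (fL K i) = 0 := by
  fin_cases i <;> simp [fL]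

theorem fA_pd {K : Type} [Field K] (v : Fin 6 → K) :
    (Matrix.of fun (q : Fin 5) (l : Fin 3) => constantCoeff (pderiv K l (fA v q))) =
      !![0, 0, 0; v 2, 0, 0; v 3, 0, 0; v 4, 1, 0; v 5, 0, 1] := by
  ext q l
  fin_cases q <;> fin_cases l <;>
    simp [fA, Derivation.leibniz]

theorem fL_pd {K : Type} [Field K] :
    (Matrix.of fun (q : Fin 5) (l : Fin 3) => constantCoeff (pderiv K l (fL K q))) =
      !![0, 0, 0; 0, 0, 0; 1, 0, 0; 0, 1, 0; 0, 0, 1] := by
  ext q l
  fin_cases q <;> fin_cases l <;>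
    simp [fL]

/-- The tangent map in matrix form. -/
theorem T0_eq (cha : CHAStmt) {K L : Type} [Field K] [Field L] [Algebra K L]
    (u : Fin 4 → Fin 5 → L) (v : Fin 6 → K) (φ : Fin 5 → MvPowerSeries (Fin 5) K) :
    T0 u v φ = Matrix.of u * (jac0 φ * (!![0, 0, 0; v 2, 0, 0; v 3, 0, 0; v 4, 1, 0; v 5, 0, 1] :
      Matrix (Fin 5) (Fin 3) K)).map (algebraMap K L) := by
  rw [← fA_pd]
  ext i l
  simp only [T0, Matrix.of_apply, Matrix.mul_apply, Matrix.map_apply]
  exact cc_pf cha u φ (fA v) (fA_cc v) i l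

/-- A maximal minor of the tangent map at the origin is nonzero. -/
theorem minor (cha : CHAStmt) (gdf : GDFStmt) {K L : Type} [Field K] [Field L] [Algebra K L]
    (u : Fin 4 → Fin 5 → L) (v : Fin 6 → K) (φ : Fin 5 → MvPowerSeries (Fin 5) K)
    (hu : Gen K u) (hv : v 2 ≠ 0) (hφ : Coord φ) :
    ∃ r : Fin 3 → Fin 4, ((T0 u v φ).submatrix r id).det ≠ 0 := by
  have hJ : IsUnit (jac0 φ).det := (isUnit_iff_ne_zero).2 hφ.2
  have hD : ((!![0, 1, 0, 0, 0; 0, 0, 1, 0, 0; 0, 0, 0, 1, 0; 0, 0, 0, 0, 1] :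
      Matrix (Fin 4) (Fin 5) K) * (jac0 φ)⁻¹ * (jac0 φ *
        (!![0, 0, 0, 0; v 2, 0, 0, 0; v 3, 0, 0, 1; v 4, 1, 0, 0; v 5, 0, 1, 0] :
          Matrix (Fin 5) (Fin 4) K))).det ≠ 0 := by
    rw [Matrix.mul_assoc, ← Matrix.mul_assoc (jac0 φ)⁻¹, Matrix.nonsing_inv_mul _ hJ,
      Matrix.one_mul]
    have h : (!![0, 1, 0, 0, 0; 0, 0, 1, 0, 0; 0, 0, 0, 1, 0; 0, 0, 0, 0, 1] :
      Matrix (Fin 4) (Fin 5) K) *
        (!![0, 0, 0, 0; v 2, 0, 0, 0; v 3, 0, 0, 1; v 4, 1, 0, 0; v 5, 0, 1, 0] :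
          Matrix (Fin 5) (Fin 4) K) =
        !![v 2, 0, 0, 0; v 3, 0, 0, 1; v 4, 1, 0, 0; v 5, 0, 1, 0] := by
      ext i j
      fin_cases i <;> fin_cases j <;> simp [Matrix.mul_apply, Fin.sum_univ_succ]
    rw [h]
    have h2 : (!![v 2, 0, 0, 0; v 3, 0, 0, 1; v 4, 1, 0, 0; v 5, 0, 1, 0] :
        Matrix (Fin 4) (Fin 4) K).det = v 2 := by
      simp [Matrix.det_succ_row_zero, Fin.sum_univ_succ]
    rw [h2]
    exact hv
  have h1 := gdf K L 4 u hu _ _ hD
  rw [Matrix.det_succ_column _ (Fin.last 3)] at h1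
  obtain ⟨i, -, hi⟩ := Finset.exists_ne_zero_of_sum_ne_zero h1
  refine ⟨i.succAbove, fun h0 => hi ?_⟩
  have h3 : ((Matrix.of u * (jac0 φ *
        (!![0, 0, 0, 0; v 2, 0, 0, 0; v 3, 0, 0, 1; v 4, 1, 0, 0; v 5, 0, 1, 0] :
          Matrix (Fin 5) (Fin 4) K)).map (algebraMap K L)).submatrix i.succAbove
          (Fin.last 3).succAbove) = (T0 u v φ).submatrix i.succAbove id := by
    rw [T0_eq cha]
    ext a l
    simp only [Matrix.submatrix_apply, Matrix.mul_apply, Matrix.map_apply, id_eq]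
    refine Finset.sum_congr rfl fun j _ => ?_
    refine congrArg (fun z => Matrix.of u (i.succAbove a) j * algebraMap K L z) ?_
    refine Finset.sum_congr rfl fun q _ => ?_
    refine congrArg (fun z => jac0 φ j q * z) ?_
    fin_cases q <;> fin_cases l <;> rfl
  rw [h3, h0, mul_zero]

end Pool.Agent.ZAR.H02
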