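import Pool.Agent.Helper2_ZAR.TGC

/-!
# Row RKM (table zar)
-/

namespace Pool.Agent.ZAR.H02

open MvPowerSeries

theorem sM_cc {L : Type} [Field L] (i : Fin 2) :
    constantCoeff ((![0, X 0] : Fin 2 → MvPowerSeries (Fin 1) L) i) = 0 := by
  fin_cases i <;> simp

theorem qM_cc {L : Type} [Field L] (i : Fin 3) :
    constantCoeff ((![0, X 0, X 1] : Fin 3 → MvPowerSeries (Fin 2) L) i) = 0 := by
  fin_cases i <;> simp

theorem zM_cc {L : Type} [Field L] (i : Fin 3) :
    constantCoeff ((![0, 0, X 0] : Fin 3 → MvPowerSeries (Fin 1) L) i) = 0 := by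
  fin_cases i <;> simp

theorem comp_prm {L : Type} [Field L] (η : MvPowerSeries (Fin 2) L)
    (f : MvPowerSeries (Fin 3) L) :
    subst (![0, X 0] : Fin 2 → MvPowerSeries (Fin 1) L) (subst (prm η) f) =
      subst (![0, 0, X 0] : Fin 3 → MvPowerSeries (Fin 1) L) f := by
  have hs : HasSubst (![0, X 0] : Fin 2 → MvPowerSeries (Fin 1) L) :=
    hasSubst_of_constantCoeff_zero sM_cc
  rw [subst_comp_subst_apply (hasSubst_of_constantCoeff_zero (prm_cc η)) hs]
  refine congrArg (fun a => subst a f) ?_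
  ext1 l
  fin_cases l
  · show subst _ (X 0) = _
    rw [subst_X hs]
    rfl
  · show subst _ (X 0 * η) = _
    rw [subst_mul hs, subst_X hs]
    show (0 : MvPowerSeries (Fin 1) L) * _ = 0
    rw [zero_mul]
  · show subst _ (X 1) = _
    rw [subst_X hs]
    rfl

theorem comp_flat {L : Type} [Field L] (f : MvPowerSeries (Fin 3) L) :
    subst (![0, X 0] : Fin 2 → MvPowerSeries (Fin 1) L)
      (subst (![0, X 0, X 1] : Fin 3 → MvPowerSeries (Fin 2) L) f) =
      subst (![0, 0, X 0] : Fin 3 → MvPowerSeries (Fin 1) L) f := by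
  have hs : HasSubst (![0, X 0] : Fin 2 → MvPowerSeries (Fin 1) L) :=
    hasSubst_of_constantCoeff_zero sM_cc
  rw [subst_comp_subst_apply (hasSubst_of_constantCoeff_zero qM_cc) hs]
  refine congrArg (fun a => subst a f) ?_
  ext1 l
  fin_cases l
  · show subst _ (0 : MvPowerSeries (Fin 2) L) = _
    rw [← coe_substAlgHom hs, map_zero]
    rfl
  · show subst _ (X 0) = _
    rw [subst_X hs]
    rfl
  · show subst _ (X 1) = _
    rw [subst_X hs]
    rfl

theorem bc_z {K L : Type} [Field K] [Field L] [Algebra K L] :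
    (fun l => bc K L (Fin 1) ((![0, 0, X 0] : Fin 3 → MvPowerSeries (Fin 1) K) l)) =
      (![0, 0, X 0] : Fin 3 → MvPowerSeries (Fin 1) L) := by
  ext1 l
  fin_cases l <;> simp

theorem z_hom {K : Type} [Field K] :
    ∃ S : MvPowerSeries (Fin 3) K →ₐ[K] MvPowerSeries (Fin 1) K,
      (∀ f, subst (![0, 0, X 0] : Fin 3 → MvPowerSeries (Fin 1) K) f = S f) ∧
      S (X 0) = 0 ∧ S (X 1) = 0 ∧ S (X 2) = X 0 ∧ ∀ c, S (C c) = C c := by
  have hs : HasSubst (![0, 0, X 0] : Fin 3 → MvPowerSeries (Fin 1) K) :=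
    hasSubst_of_constantCoeff_zero zM_cc
  refine ⟨substAlgHom hs, fun f => by rw [coe_substAlgHom hs], ?_, ?_, ?_, fun c => ?_⟩
  · rw [substAlgHom_X]
    rfl
  · rw [substAlgHom_X]
    rfl
  · rw [substAlgHom_X]
    rfl
  · rw [coe_substAlgHom hs, subst_C]

theorem fA_z {K : Type} [Field K] (v : Fin 6 → K) :
    (fun j => subst (![0, 0, X 0] : Fin 3 → MvPowerSeries (Fin 1) K) (fA v j)) =
      ![0, 0, 0, 0, X 0] := by
  obtain ⟨S, hS, h0, h1, h2, hC⟩ := z_hom (K := K)
  ext1 j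
  rw [hS]
  fin_cases j <;> simp [fA, h0, h1, h2]

theorem fL_z {K : Type} [Field K] :
    (fun j => subst (![0, 0, X 0] : Fin 3 → MvPowerSeries (Fin 1) K) (fL K j)) =
      ![0, 0, 0, 0, X 0] := by
  obtain ⟨S, hS, h0, h1, h2, hC⟩ := z_hom (K := K)
  ext1 j
  rw [hS]
  fin_cases j <;> simp [fL, h0, h1, h2]

/-- The derivative of the flat surface in the first direction. -/
theorem flat_pd (cha : CHAStmt) {K L : Type} [Field K] [Field L] [Algebra K L]
    (u : Fin 4 → Fin 5 → L) (v : Fin 6 → K) (φ : Fin 5 → MvPowerSeries (Fin 5) K) (j : Fin 4) :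
    constantCoeff (pderiv L 0 (subst (![0, X 0, X 1] : Fin 3 → MvPowerSeries (Fin 2) L)
      (pf u φ (fL K) j))) = T0 u v φ j 1 := by
  rw [cc_pd_subst cha qM_cc, Fin.sum_univ_three]
  have h : constantCoeff (pderiv L 1 (pf u φ (fL K) j)) = T0 u v φ j 1 := by
    show _ = constantCoeff (pderiv L 1 (pf u φ (fA v) j))
    rw [cc_pf cha u φ (fL K) fL_cc, cc_pf cha u φ (fA v) (fA_cc v)]
    refine Finset.sum_congr rfl fun a _ => ?_
    refine congrArg (fun z => u j a * algebraMap K L z) ?_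
    refine Finset.sum_congr rfl fun q _ => ?_
    refine congrArg (fun z => jac0 φ a q * z) ?_
    have hA := congrFun (congrFun (fA_pd v) q) 1
    have hL := congrFun (congrFun (fL_pd (K := K)) q) 1
    simp only [Matrix.of_apply] at hA hL
    rw [hA, hL]
    fin_cases q <;> rfl
  rw [h]
  simp

theorem rkm (cha : CHAStmt) (gdf : GDFStmt) (pfs : PFSStmt) : RKMStmt := by
  intro K L _ _ _ _ u v φ η hu h2 _ hφ
  refine ⟨fun j => ?_, ?_⟩
  · rw [comp_prm, comp_flat]
    have hA := (pfs K L 4 3 1 u φ (fA v) (![0, 0, X 0] : Fin 3 → MvPowerSeries (Fin 1) K)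
      hφ.1 (fA_cc v) zM_cc).2 j
    have hL := (pfs K L 4 3 1 u φ (fL K) (![0, 0, X 0] : Fin 3 → MvPowerSeries (Fin 1) K)
      hφ.1 fL_cc zM_cc).2 j
    rw [bc_z] at hA hL
    rw [← hA, ← hL, fA_z, fL_z]
  · obtain ⟨r, hr⟩ := minor cha gdf u v φ hu h2 hφ
    refine ⟨![Sum.inl 0, Sum.inl 1, Sum.inr 0], r, fun h0 => ?_⟩
    have h1 := congrArg (constantCoeff (σ := Fin 1) (R := L)) h0
    rw [RingHom.map_det, map_zero] at h1
    have hW : (constantCoeff (σ := Fin 1) (R := L)).mapMatrix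
        ((tanM (fun j => subst (prm η) (pf u φ (fA v) j))
        (fun j => subst (![0, X 0, X 1] : Fin 3 → MvPowerSeries (Fin 2) L) (pf u φ (fL K) j))
        (![0, X 0] : Fin 2 → MvPowerSeries (Fin 1) L) ![0, X 0]
        ![Sum.inl 0, Sum.inl 1, Sum.inr 0]).submatrix r id) =
        (T0 u v φ).submatrix r id *
          (!![1, 0, 0; constantCoeff η, 0, 1; 0, 1, 0] : Matrix (Fin 3) (Fin 3) L) := by
      ext a k
      rw [Matrix.mul_apply, Fin.sum_univ_three]
      fin_cases k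
      · show constantCoeff (subst (![0, X 0] : Fin 2 → MvPowerSeries (Fin 1) L)
          (pderiv L 0 (subst (prm η) (pf u φ (fA v) (r a))))) = T0 u v φ (r a) 0 * 1 +
            T0 u v φ (r a) 1 * constantCoeff η + T0 u v φ (r a) 2 * 0
        rw [cc_subst sM_cc, surf_pd cha]
        simp [Fin.sum_univ_three]
      · show constantCoeff (subst (![0, X 0] : Fin 2 → MvPowerSeries (Fin 1) L)
          (pderiv L 1 (subst (prm η) (pf u φ (fA v) (r a))))) = T0 u v φ (r a) 0 * 0 +
            T0 u v φ (r a) 1 * 0 + T0 u v φ (r a) 2 * 1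
        rw [cc_subst sM_cc, surf_pd cha]
        simp [Fin.sum_univ_three]
      · show constantCoeff (subst (![0, X 0] : Fin 2 → MvPowerSeries (Fin 1) L)
          (pderiv L 0 (subst (![0, X 0, X 1] : Fin 3 → MvPowerSeries (Fin 2) L)
            (pf u φ (fL K) (r a))))) = T0 u v φ (r a) 0 * 0 +
            T0 u v φ (r a) 1 * 1 + T0 u v φ (r a) 2 * 0
        rw [cc_subst sM_cc, flat_pd cha u v φ]
        ring
    rw [hW, Matrix.det_mul] at h1
    have hd : (!![1, 0, 0; constantCoeff η, 0, 1; 0, 1, 0] : Matrix (Fin 3) (Fin 3) L).det = -1 := by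
      simp [Matrix.det_fin_three]
    rw [hd] at h1
    exact hr (by simpa using h1)

end Pool.Agent.ZAR.H02
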