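import Pool.Agent.Helper2_ZAR.Kit

/-!
# Row TGC (table zar)
-/

namespace Pool.Agent.ZAR.H02

open MvPowerSeries

theorem prm_cc {L : Type} [Field L] (η : MvPowerSeries (Fin 2) L) (i : Fin 3) :
    constantCoeff (prm η i) = 0 := by
  fin_cases i <;> simp [prm]

theorem prm_pd {L : Type} [Field L] (η : MvPowerSeries (Fin 2) L) :
    (Matrix.of fun (l : Fin 3) (i : Fin 2) => constantCoeff (pderiv L i (prm η l))) =
      !![1, 0; constantCoeff η, 0; 0, 1] := by
  ext l i
  fin_cases l <;> fin_cases i <;> simp [prm, Derivation.leibniz]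

/-- The derivatives at the origin of the secant surface. -/
theorem surf_pd (cha : CHAStmt) {K L : Type} [Field K] [Field L] [Algebra K L]
    (u : Fin 4 → Fin 5 → L) (v : Fin 6 → K) (φ : Fin 5 → MvPowerSeries (Fin 5) K)
    (η : MvPowerSeries (Fin 2) L) (j : Fin 4) (i : Fin 2) :
    constantCoeff (pderiv L i (subst (prm η) (pf u φ (fA v) j))) =
      ∑ l, T0 u v φ j l * (!![1, 0; constantCoeff η, 0; 0, 1] : Matrix (Fin 3) (Fin 2) L) l i := by
  rw [cc_pd_subst cha (prm_cc η), ← prm_pd]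
  rfl

theorem tgc (cha : CHAStmt) (gdf : GDFStmt) : TGCStmt := by
  intro K L _ _ _ _ u v φ η tc hu h2 _ hφ htc
  obtain ⟨r, hr⟩ := minor cha gdf u v φ hu h2 hφ
  have e1 : ∀ i, constantCoeff ((![X 0, tc] : Fin 2 → MvPowerSeries (Fin 1) L) i) = 0 := by
    intro i
    fin_cases i
    · simp
    · simpa using htc
  have e2 : ∀ i, constantCoeff ((![0, X 0] : Fin 2 → MvPowerSeries (Fin 1) L) i) = 0 := by
    intro i
    fin_cases i <;> simp
  have t1 : ∀ j, tg (fun j => subst (![X 0, tc] : Fin 2 → MvPowerSeries (Fin 1) L)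
      (subst (prm η) (pf u φ (fA v) j))) j = T0 u v φ j 0 + T0 u v φ j 1 * constantCoeff η +
        T0 u v φ j 2 * constantCoeff (pderiv L 0 tc) := by
    intro j
    unfold tg
    rw [cc_pd_subst cha e1, Fin.sum_univ_two, surf_pd cha, surf_pd cha]
    simp [Fin.sum_univ_three]
  have t2 : ∀ j, tg (fun j => subst (![0, X 0] : Fin 2 → MvPowerSeries (Fin 1) L)
      (subst (prm η) (pf u φ (fA v) j))) j = T0 u v φ j 2 := by
    intro j
    unfold tg
    rw [cc_pd_subst cha e2, Fin.sum_univ_two, surf_pd cha, surf_pd cha]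
    simp [Fin.sum_univ_three]
  rw [LinearIndependent.pair_iff]
  intro s t h
  have h0 : ((T0 u v φ).submatrix r id).mulVec
      ![s, s * constantCoeff η, s * constantCoeff (pderiv L 0 tc) + t] = 0 := by
    ext a
    have h1 := congrFun h (r a)
    simp only [Pi.add_apply, Pi.smul_apply, smul_eq_mul, Pi.zero_apply] at h1
    rw [t1, t2] at h1
    show ∑ l : Fin 3, T0 u v φ (r a) l * (![s, s * constantCoeff η,
      s * constantCoeff (pderiv L 0 tc) + t] : Fin 3 → L) l = 0
    rw [Fin.sum_univ_three]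
    show T0 u v φ (r a) 0 * s + T0 u v φ (r a) 1 * (s * constantCoeff η) +
      T0 u v φ (r a) 2 * (s * constantCoeff (pderiv L 0 tc) + t) = 0
    rw [← h1]
    ring
  have h3 := Matrix.eq_zero_of_mulVec_eq_zero hr h0
  have hs : s = 0 := congrFun h3 0
  have ht : s * constantCoeff (pderiv L 0 tc) + t = 0 := congrFun h3 2
  refine ⟨hs, ?_⟩
  rwa [hs, zero_mul, zero_add] at ht

end Pool.Agent.ZAR.H02
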